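import Mathlib

/-!
Deletion criterion for products of conjugates of signed letters in a free group.
-/

set_option autoImplicit false

namespace Pool.Agent.H36.Kerv

open FreeGroup

abbrev X := Bool × Bool

/-- `L` contains a sublist `L'` representing the identity such that the deleted letters
are bounded by `A` (letterwise). -/
def DelP (A : X → ℕ) (L : List X) : Prop :=
  ∃ L' : List X, L'.Sublist L ∧ (FreeGroup.mk L' : FreeGroup Bool) = 1 ∧
    ∀ y, L.count y ≤ L'.count y + A y

theorem red_single {x : X} {L : List X} (h : FreeGroup.Red L [x]) :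
    ∃ L1 L2, L = L1 ++ x :: L2 ∧ (FreeGroup.mk L1 : FreeGroup Bool) = 1 ∧
      (FreeGroup.mk L2 : FreeGroup Bool) = 1 := by
  induction h using Relation.ReflTransGen.head_induction_on with
  | refl => exact ⟨[], [], rfl, rfl, rfl⟩
  | head hs _ ih =>
    obtain ⟨L1, L2, e, h1, h2⟩ := ih
    cases hs with
    | @not P Q y c =>
      rcases List.append_eq_append_iff.1 e with ⟨a, ea, eb⟩ | ⟨a, ea, eb⟩
      · -- L1 = P ++ a, Q = a ++ x :: L2
        refine ⟨P ++ (y, c) :: (y, !c) :: a, L2, ?_, ?_, h2⟩
        · rw [eb]; simp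
        · rw [← h1, ea]
          exact Quot.sound FreeGroup.Red.Step.not
      · -- P = L1 ++ a, x :: L2 = a ++ Q
        cases a with
        | nil =>
          simp only [List.append_nil, List.nil_append] at ea eb
          subst ea
          refine ⟨P ++ (y, c) :: (y, !c) :: [], L2, ?_, ?_, h2⟩
          · rw [← eb]; simp
          · rw [← h1]
            have := @FreeGroup.Red.Step.not Bool P [] y c
            have h3 : (FreeGroup.mk (P ++ (y, c) :: (y, !c) :: []) : FreeGroup Bool)
              = FreeGroup.mk (P ++ []) := Quot.sound this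
            rw [h3, List.append_nil]
        | cons z a =>
          simp only [List.cons_append, List.cons.injEq] at eb
          obtain ⟨rfl, eb⟩ := eb
          refine ⟨L1, a ++ (y, c) :: (y, !c) :: Q, ?_, h1, ?_⟩
          · rw [ea]; simp
          · rw [← h2, eb]
            exact Quot.sound FreeGroup.Red.Step.not

theorem mk_append (U V : List X) : (FreeGroup.mk (U ++ V) : FreeGroup Bool)
    = FreeGroup.mk U * FreeGroup.mk V := rfl

theorem red_of_mk_eq_single {x : X} {L : List X}
    (h : (FreeGroup.mk L : FreeGroup Bool) = FreeGroup.mk [x]) : FreeGroup.Red L [x] := by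
  obtain ⟨c, h1, h2⟩ := FreeGroup.Red.exact.1 h
  rwa [FreeGroup.Red.singleton_iff.1 h2] at h1

theorem mk_inv_single (x b : Bool) : (FreeGroup.mk [(x, !b)] : FreeGroup Bool)
    = (FreeGroup.mk [(x, b)])⁻¹ := by
  simp [FreeGroup.inv_mk, FreeGroup.invRev]

theorem sub_aux (U V : List X) (x b : Bool)
    (h : (FreeGroup.mk (U ++ (x, !b) :: V) : FreeGroup Bool) = 1) :
    (∃ U1 U2, U = U1 ++ (x, b) :: U2 ∧ (FreeGroup.mk ((U1 ++ U2) ++ V) : FreeGroup Bool) = 1) ∨
    (∃ V1 V2, V = V1 ++ (x, b) :: V2 ∧ (FreeGroup.mk (U ++ (V1 ++ V2)) : FreeGroup Bool) = 1) := by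
  have h0 : (FreeGroup.mk U : FreeGroup Bool) * ((FreeGroup.mk [(x, b)])⁻¹ * FreeGroup.mk V) = 1 := by
    rw [← h, ← mk_inv_single]
    rfl
  have h1 : (FreeGroup.mk (V ++ U) : FreeGroup Bool) = FreeGroup.mk [(x, b)] := by
    rw [mk_append]
    have : (FreeGroup.mk U : FreeGroup Bool) = ((FreeGroup.mk [(x, b)])⁻¹ * FreeGroup.mk V)⁻¹ :=
      eq_inv_of_mul_eq_one_left h0
    rw [this]; group
  obtain ⟨L1, L2, e, e1, e2⟩ := red_single (red_of_mk_eq_single h1)
  rcases List.append_eq_append_iff.1 e with ⟨a, ea, eb⟩ | ⟨a, ea, eb⟩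
  · -- L1 = V ++ a, U = a ++ (x,b) :: L2
    left
    refine ⟨a, L2, eb, ?_⟩
    rw [ea, mk_append] at e1
    rw [mk_append, mk_append, e2, mul_one]
    exact mul_eq_one_comm.1 e1
  · cases a with
    | nil =>
      simp only [List.append_nil, List.nil_append] at ea eb
      subst ea
      left
      refine ⟨[], L2, eb.symm, ?_⟩
      rw [mk_append, List.nil_append, e2, e1, mul_one]
    | cons z a =>
      simp only [List.cons_append, List.cons.injEq] at eb
      obtain ⟨rfl, eb⟩ := eb
      right
      refine ⟨L1, a, ea, ?_⟩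
      rw [eb, mk_append] at e2
      rw [mk_append, mk_append, e1, one_mul]
      exact mul_eq_one_comm.1 e2

theorem delP_forward {A : X → ℕ} {L M : List X} (hs : FreeGroup.Red.Step L M)
    (h : DelP A L) : DelP A M := by
  cases hs with
  | @not P Q x b =>
    obtain ⟨L', hL', h1, hc⟩ := h
    obtain ⟨P', R', rfl, hP', hR'⟩ := List.sublist_append_iff.1 hL'
    rcases List.sublist_cons_iff.1 hR' with hR1 | ⟨R1, rfl, hR1⟩
    · rcases List.sublist_cons_iff.1 hR1 with hR2 | ⟨R2, rfl, hR2⟩
      · -- both deleted
        refine ⟨P' ++ R', hP'.append hR2, h1, fun y => ?_⟩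
        have := hc y
        simp only [List.count_append, List.count_cons] at this ⊢
        omega
      · -- first deleted, second kept
        rcases sub_aux P' R2 x b h1 with ⟨U1, U2, rfl, hU⟩ | ⟨V1, V2, rfl, hV⟩
        · refine ⟨(U1 ++ U2) ++ R2, ?_, hU, fun y => ?_⟩
          · refine List.Sublist.append (List.Sublist.trans ?_ hP') hR2
            exact List.Sublist.append (List.Sublist.refl _) (List.sublist_cons_self _ _)
          · have := hc y
            simp only [List.count_append, List.count_cons] at this ⊢
            omega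
        · refine ⟨P' ++ (V1 ++ V2), ?_, hV, fun y => ?_⟩
          · refine List.Sublist.append hP' (List.Sublist.trans ?_ hR2)
            exact List.Sublist.append (List.Sublist.refl _) (List.sublist_cons_self _ _)
          · have := hc y
            simp only [List.count_append, List.count_cons] at this ⊢
            omega
    · rcases List.sublist_cons_iff.1 hR1 with hR2 | ⟨R2, rfl, hR2⟩
      · -- first kept, second deleted
        have h1' : (FreeGroup.mk (P' ++ (x, !(!b)) :: R1) : FreeGroup Bool) = 1 := by
          rw [Bool.not_not]; exact h1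
        rcases sub_aux P' R1 x (!b) h1' with ⟨U1, U2, rfl, hU⟩ | ⟨V1, V2, rfl, hV⟩
        · refine ⟨(U1 ++ U2) ++ R1, ?_, hU, fun y => ?_⟩
          · refine List.Sublist.append (List.Sublist.trans ?_ hP') hR2
            exact List.Sublist.append (List.Sublist.refl _) (List.sublist_cons_self _ _)
          · have := hc y
            simp only [List.count_append, List.count_cons] at this ⊢
            omega
        · refine ⟨P' ++ (V1 ++ V2), ?_, hV, fun y => ?_⟩
          · refine List.Sublist.append hP' (List.Sublist.trans ?_ hR2)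
            exact List.Sublist.append (List.Sublist.refl _) (List.sublist_cons_self _ _)
          · have := hc y
            simp only [List.count_append, List.count_cons] at this ⊢
            omega
      · -- both kept
        refine ⟨P' ++ R2, hP'.append hR2, ?_, fun y => ?_⟩
        · rw [← h1]
          exact (Quot.sound FreeGroup.Red.Step.not).symm
        · have := hc y
          simp only [List.count_append, List.count_cons] at this ⊢
          omega

theorem delP_backward {A : X → ℕ} {L M : List X} (hs : FreeGroup.Red.Step L M)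
    (h : DelP A M) : DelP A L := by
  cases hs with
  | @not P Q x b =>
    obtain ⟨L', hL', h1, hc⟩ := h
    obtain ⟨P', R', rfl, hP', hR'⟩ := List.sublist_append_iff.1 hL'
    refine ⟨P' ++ (x, b) :: (x, !b) :: R', ?_, ?_, fun y => ?_⟩
    · exact hP'.append ((hR'.cons_cons _).cons_cons _)
    · rw [← h1]
      exact Quot.sound FreeGroup.Red.Step.not
    · have := hc y
      simp only [List.count_append, List.count_cons] at this ⊢
      omega

theorem delP_red {A : X → ℕ} {L M : List X} (hs : FreeGroup.Red L M) : DelP A L ↔ DelP A M := by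
  induction hs with
  | refl => exact Iff.rfl
  | tail _ hs ih => exact ih.trans ⟨delP_forward hs, delP_backward hs⟩

theorem delP_congr {A : X → ℕ} {L M : List X}
    (h : (FreeGroup.mk L : FreeGroup Bool) = FreeGroup.mk M) : DelP A L ↔ DelP A M := by
  obtain ⟨c, h1, h2⟩ := FreeGroup.Red.exact.1 h
  exact (delP_red h1).trans (delP_red h2).symm

/-- the corresponding property of elements of the free group -/
def Del (A : X → ℕ) (w : FreeGroup Bool) : Prop := ∀ L, FreeGroup.mk L = w → DelP A L

theorem del_of {A : X → ℕ} {L : List X} (h : DelP A L) : Del A (FreeGroup.mk L) :=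
  fun _ hM => (delP_congr hM).2 h

theorem del_mul {A B : X → ℕ} {v w : FreeGroup Bool} (hv : Del A v) (hw : Del B w) :
    Del (A + B) (v * w) := by
  obtain ⟨L1, h1, e1, c1⟩ := hv v.toWord FreeGroup.mk_toWord
  obtain ⟨L2, h2, e2, c2⟩ := hw w.toWord FreeGroup.mk_toWord
  have : v * w = FreeGroup.mk (v.toWord ++ w.toWord) := by
    rw [mk_append, FreeGroup.mk_toWord, FreeGroup.mk_toWord]
  rw [this]
  refine del_of ⟨L1 ++ L2, h1.append h2, ?_, fun y => ?_⟩
  · rw [mk_append, e1, e2, one_mul]
  · have := c1 y
    have := c2 y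
    simp only [List.count_append, Pi.add_apply] at *
    omega

theorem del_conj {A : X → ℕ} {w : FreeGroup Bool} (hw : Del A w) (g : FreeGroup Bool) :
    Del A (g * w * g⁻¹) := by
  obtain ⟨L2, h2, e2, c2⟩ := hw w.toWord FreeGroup.mk_toWord
  have : g * w * g⁻¹ = FreeGroup.mk (g.toWord ++ w.toWord ++ g⁻¹.toWord) := by
    rw [mk_append, mk_append, FreeGroup.mk_toWord, FreeGroup.mk_toWord, FreeGroup.mk_toWord]
  rw [this]
  refine del_of ⟨g.toWord ++ L2 ++ g⁻¹.toWord,
    (List.Sublist.append (List.Sublist.append (List.Sublist.refl _) h2) (List.Sublist.refl _)),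
    ?_, fun y => ?_⟩
  · rw [mk_append, mk_append, e2, mul_one, FreeGroup.mk_toWord, FreeGroup.mk_toWord,
      mul_inv_cancel]
  · have := c2 y
    simp only [List.count_append] at *
    omega

theorem del_single (a : X) : Del (fun y => if a = y then 1 else 0) (FreeGroup.mk [a]) := by
  refine del_of ⟨[], List.nil_sublist _, rfl, fun y => ?_⟩
  by_cases h : a = y
  · simp [h]
  · simp [h, List.count_cons]

end Pool.Agent.H36.Kerv
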