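import Mathlib
import Pool.Agent.H36.Kerv.Del

set_option autoImplicit false

namespace Pool.Agent.H36.Kerv

/-- one step of free reduction from the left -/
def push (x : X) (l : List X) : List X :=
  match l with
  | [] => [x]
  | y :: ys => if x.1 = y.1 ∧ x.2 = !y.2 then ys else x :: y :: ys

theorem reduce_cons (x : X) (l : List X) :
    FreeGroup.reduce (x :: l) = push x (FreeGroup.reduce l) := by
  rw [FreeGroup.reduce.cons]
  cases FreeGroup.reduce l with
  | nil => rfl
  | cons y ys => rfl

/-- Letters: `(false, true) = b`, `(true, true) = c`. -/
def isB' : X → Bool := fun x => !x.1 && !x.2
def isC : X → Bool := fun x => x.1 && x.2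
def isC' : X → Bool := fun x => x.1 && !x.2

/-- all reduced forms of sublists of `L` with exactly `d` letters `b⁻¹`, `p` letters `c`
and `q` letters `c⁻¹` deleted -/
def R : List X → ℕ → ℕ → ℕ → List (List X)
  | [], 0, 0, 0 => [[]]
  | [], _, _, _ => []
  | x :: L, d, p, q =>
    (R L d p q).map (push x) ++
      (match x with
       | (false, false) => (match d with | 0 => [] | d + 1 => R L d p q)
       | (false, true) => []
       | (true, true) => (match p with | 0 => [] | p + 1 => R L d p q)
       | (true, false) => (match q with | 0 => [] | q + 1 => R L d p q))

theorem R_complete (L L' : List X) (h : L'.Sublist L) (d p q : ℕ)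
    (hb : L.count (false, true) = L'.count (false, true))
    (hd : L.count (false, false) = L'.count (false, false) + d)
    (hp : L.count (true, true) = L'.count (true, true) + p)
    (hq : L.count (true, false) = L'.count (true, false) + q) :
    FreeGroup.reduce L' ∈ R L d p q := by
  induction h generalizing d p q with
  | slnil =>
    simp only [List.count_nil, Nat.zero_add] at hd hp hq
    subst hd hp hq
    simp [R]
  | @cons l₁ l₂ x hs ih =>
    have c1 := hs.count_le (false, true)
    have c2 := hs.count_le (false, false)
    have c3 := hs.count_le (true, true)
    have c4 := hs.count_le (true, false)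
    unfold R
    rw [List.mem_append]
    right
    rcases x with ⟨x1, x2⟩
    rcases x1 with _ | _ <;> rcases x2 with _ | _
    · simp only [List.count_cons, beq_iff_eq, Prod.mk.injEq, Bool.true_eq_false, Bool.false_eq_true,
        and_self, and_true, and_false, false_and, true_and, if_true, if_false, ite_true, ite_false,
        Nat.add_zero] at hb hd hp hq
      cases d with
      | zero => omega
      | succ d => exact ih d p q (by omega) (by omega) (by omega) (by omega)
    · simp only [List.count_cons, beq_iff_eq, Prod.mk.injEq, Bool.true_eq_false, Bool.false_eq_true,
        and_self, and_true, and_false, false_and, true_and, if_true, if_false, ite_true, ite_false,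
        Nat.add_zero] at hb hd hp hq
      omega
    · simp only [List.count_cons, beq_iff_eq, Prod.mk.injEq, Bool.true_eq_false, Bool.false_eq_true,
        and_self, and_true, and_false, false_and, true_and, if_true, if_false, ite_true, ite_false,
        Nat.add_zero] at hb hd hp hq
      cases q with
      | zero => omega
      | succ q => exact ih d p q (by omega) (by omega) (by omega) (by omega)
    · simp only [List.count_cons, beq_iff_eq, Prod.mk.injEq, Bool.true_eq_false, Bool.false_eq_true,
        and_self, and_true, and_false, false_and, true_and, if_true, if_false, ite_true, ite_false,
        Nat.add_zero] at hb hd hp hq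
      cases p with
      | zero => omega
      | succ p => exact ih d p q (by omega) (by omega) (by omega) (by omega)
  | @cons_cons l₁ l₂ x hs ih =>
    unfold R
    rw [List.mem_append]
    left
    rw [reduce_cons]
    apply List.mem_map_of_mem
    apply ih
    · have := hb
      simp only [List.count_cons] at this
      omega
    · have := hd
      simp only [List.count_cons] at this
      omega
    · have := hp
      simp only [List.count_cons] at this
      omega
    · have := hq
      simp only [List.count_cons] at this
      omega

/-- the inverse of the word `W` -/
def Winv : List X :=
  [(false, false), (false, false), (true, true), (false, false), (false, false), (true, true),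
   (false, true), (true, false), (false, false), (false, false), (true, true), (false, true),
   (true, false), (false, false), (true, true), (false, true),
   (true, false), (true, false), (true, false), (true, false)]

set_option maxRecDepth 100000 in
theorem chk1 : ((R Winv 4 1 3).all fun l => !l.isEmpty) = true := by decide +kernel

set_option maxRecDepth 100000 in
theorem chk2 : ((R Winv 4 0 2).all fun l => !l.isEmpty) = true := by decide +kernel

theorem count_eq {L : List X} (h : (FreeGroup.mk L : FreeGroup Bool) = 1) (x : Bool) :
    L.count (x, true) = L.count (x, false) := by
  have key : ∀ L : List X, Multiplicative.toAdd (FreeGroup.lift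
      (fun y : Bool => if y = x then Multiplicative.ofAdd (1 : ℤ) else 1) (FreeGroup.mk L))
      = (L.count (x, true) : ℤ) - L.count (x, false) := by
    intro L
    induction L with
    | nil => simp [FreeGroup.lift_mk]
    | cons y L ih =>
      rw [FreeGroup.lift_mk] at ih ⊢
      rw [List.map_cons, List.prod_cons, toAdd_mul, ih]
      rcases y with ⟨y1, y2⟩
      simp only [List.count_cons, beq_iff_eq, Prod.mk.injEq]
      by_cases hy : y1 = x
      · subst hy
        cases y2 <;> simp <;> ring
      · cases y2 <;> simp [hy]
  have := key L
  rw [h, map_one] at this
  simp only [toAdd_one] at this
  omega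

theorem not_delP : ¬ DelP (fun y => match y with
    | (false, false) => 4 | (false, true) => 0 | (true, true) => 1 | (true, false) => 3) Winv := by
  rintro ⟨L', hs, h1, hc⟩
  have e1 := count_eq h1 false
  have e2 := count_eq h1 true
  have c1 := hc (false, true)
  have c2 := hc (false, false)
  have c3 := hc (true, true)
  have c4 := hc (true, false)
  have w1 : Winv.count (false, true) = 3 := by decide
  have w2 : Winv.count (false, false) = 7 := by decide
  have w3 : Winv.count (true, true) = 4 := by decide
  have w4 : Winv.count (true, false) = 6 := by decide
  have l1 := hs.count_le (false, true)
  have l2 := hs.count_le (false, false)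
  have l3 := hs.count_le (true, true)
  have l4 := hs.count_le (true, false)
  simp only [] at c1 c2 c3 c4
  have hr : FreeGroup.reduce L' = [] := by
    have := congrArg FreeGroup.toWord h1
    rwa [FreeGroup.toWord_mk, FreeGroup.toWord_one] at this
  rcases Nat.lt_or_ge (L'.count (true, true)) 4 with h | h
  · have := R_complete Winv L' hs 4 1 3 (by omega) (by omega) (by omega) (by omega)
    rw [hr] at this
    have h2 := List.all_eq_true.1 chk1 _ this
    simp at h2
  · have := R_complete Winv L' hs 4 0 2 (by omega) (by omega) (by omega) (by omega)
    rw [hr] at this
    have h2 := List.all_eq_true.1 chk2 _ this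
    simp at h2

end Pool.Agent.H36.Kerv
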