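import Mathlib
import Pool.Agent.H36.Kerv.Check

set_option autoImplicit false

namespace Pool.Agent.H36.Kerv

set_option maxRecDepth 100000 in
/-- The identity in the extension group: if `t⁻¹ c t t b = 1`. -/
theorem ext_identity {H : Type*} [Group H] (b c t : H) (h : t⁻¹ * c * t * t * b = 1) :
    (c * c * c * c * b⁻¹ * c⁻¹ * b * c * b⁻¹ * c⁻¹ * b * b * c * b⁻¹ * c⁻¹ * b * b * c⁻¹ * b * b) *
    (t⁻¹ * c * t) *
    ((c * c * c * c * t⁻¹) * c⁻¹ * (c * c * c * c * t⁻¹)⁻¹) *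
    ((c * c * c * c * b⁻¹ * c⁻¹ * t) * b⁻¹ * (c * c * c * c * b⁻¹ * c⁻¹ * t)⁻¹) *
    ((c * c * c * c * b⁻¹ * c⁻¹ * b * c * t⁻¹) * c⁻¹ *
      (c * c * c * c * b⁻¹ * c⁻¹ * b * c * t⁻¹)⁻¹) *
    ((c * c * c * c * b⁻¹ * c⁻¹ * b * c * b⁻¹ * c⁻¹ * t) * b⁻¹ *
      (c * c * c * c * b⁻¹ * c⁻¹ * b * c * b⁻¹ * c⁻¹ * t)⁻¹) *
    ((c * c * c * c * b⁻¹ * c⁻¹ * b * c * b⁻¹ * c⁻¹ * b * b * c * t⁻¹) * c⁻¹ *
      (c * c * c * c * b⁻¹ * c⁻¹ * b * c * b⁻¹ * c⁻¹ * b * b * c * t⁻¹)⁻¹) *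
    ((c * c * c * c * b⁻¹ * c⁻¹ * b * c * b⁻¹ * c⁻¹ * b * b * c * b⁻¹ * c⁻¹ * t) * b⁻¹ *
      (c * c * c * c * b⁻¹ * c⁻¹ * b * c * b⁻¹ * c⁻¹ * b * b * c * b⁻¹ * c⁻¹ * t)⁻¹) *
    ((c * c * c * c * b⁻¹ * c⁻¹ * b * c * b⁻¹ * c⁻¹ * b * b * c * b⁻¹ * c⁻¹ * b * b * c⁻¹ * t) * b⁻¹
      * (c * c * c * c * b⁻¹ * c⁻¹ * b * c * b⁻¹ * c⁻¹ * b * b * c * b⁻¹ * c⁻¹ * b * b * c⁻¹ * t)⁻¹)
    = 1 := by
  have hb : b = t⁻¹ * t⁻¹ * c⁻¹ * t := by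
    have := eq_inv_of_mul_eq_one_right h
    rw [this]; group
  subst hb
  group


theorem ext_identity2 {H : Type*} [Group H] (b c t : H) (h : t⁻¹ * c * t * t * b = 1) :
    1 * (c * c * c * c * b⁻¹ * c⁻¹ * b * c * b⁻¹ * c⁻¹ * b * b * c * b⁻¹ * c⁻¹ * b * b * c⁻¹ * b * b) * 1⁻¹ *
      (t⁻¹ * c * t⁻¹⁻¹ *
      ((c * c * c * c * t⁻¹) * c⁻¹ * (c * c * c * c * t⁻¹)⁻¹ *
      ((c * c * c * c * b⁻¹ * c⁻¹ * t) * b⁻¹ * (c * c * c * c * b⁻¹ * c⁻¹ * t)⁻¹ *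
      ((c * c * c * c * b⁻¹ * c⁻¹ * b * c * t⁻¹) * c⁻¹ * (c * c * c * c * b⁻¹ * c⁻¹ * b * c * t⁻¹)⁻¹ *
      ((c * c * c * c * b⁻¹ * c⁻¹ * b * c * b⁻¹ * c⁻¹ * t) * b⁻¹ * (c * c * c * c * b⁻¹ * c⁻¹ * b * c * b⁻¹ * c⁻¹ * t)⁻¹ *
      ((c * c * c * c * b⁻¹ * c⁻¹ * b * c * b⁻¹ * c⁻¹ * b * b * c * t⁻¹) * c⁻¹ * (c * c * c * c * b⁻¹ * c⁻¹ * b * c * b⁻¹ * c⁻¹ * b * b * c * t⁻¹)⁻¹ *
      ((c * c * c * c * b⁻¹ * c⁻¹ * b * c * b⁻¹ * c⁻¹ * b * b * c * b⁻¹ * c⁻¹ * t) * b⁻¹ * (c * c * c * c * b⁻¹ * c⁻¹ * b * c * b⁻¹ * c⁻¹ * b * b * c * b⁻¹ * c⁻¹ * t)⁻¹ *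
      ((c * c * c * c * b⁻¹ * c⁻¹ * b * c * b⁻¹ * c⁻¹ * b * b * c * b⁻¹ * c⁻¹ * b * b * c⁻¹ * t) * b⁻¹ * (c * c * c * c * b⁻¹ * c⁻¹ * b * c * b⁻¹ * c⁻¹ * b * b * c * b⁻¹ * c⁻¹ * b * b * c⁻¹ * t)⁻¹ *
      (1))))))))) = 1 := by
  have key := ext_identity b c t h
  rw [one_mul, inv_one, mul_one, inv_inv, mul_one]
  simpa only [mul_assoc] using key

/-- the two generators of the free group -/
def b : FreeGroup Bool := FreeGroup.mk [(false, true)]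
def c : FreeGroup Bool := FreeGroup.mk [(true, true)]

/-- the element `W` -/
def W : FreeGroup Bool :=
  c * c * c * c * b⁻¹ * c⁻¹ * b * c * b⁻¹ * c⁻¹ * b * b * c * b⁻¹ * c⁻¹ * b * b * c⁻¹ * b * b

theorem W_inv : W⁻¹ = FreeGroup.mk Winv := by
  unfold W b c Winv
  simp only [FreeGroup.inv_mk, FreeGroup.mul_mk]
  rfl

theorem b_inv : b⁻¹ = FreeGroup.mk [(false, false)] := rfl
theorem c_inv : c⁻¹ = FreeGroup.mk [(true, false)] := rfl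

/-- In the free group no product of conjugates is trivial. -/
theorem not_exists (x0 x1 x2 x3 x4 x5 x6 x7 x8 : FreeGroup Bool)
    (h : (x0 * W * x0⁻¹) * ((x1 * c * x1⁻¹) * ((x2 * c⁻¹ * x2⁻¹) * ((x3 * b⁻¹ * x3⁻¹) *
      ((x4 * c⁻¹ * x4⁻¹) * ((x5 * b⁻¹ * x5⁻¹) * ((x6 * c⁻¹ * x6⁻¹) * ((x7 * b⁻¹ * x7⁻¹) *
        (x8 * b⁻¹ * x8⁻¹)))))))) = 1) : False := by
  have hd := del_mul (del_conj (del_single (true, true)) x1)
    (del_mul (del_conj (del_single (true, false)) x2)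
    (del_mul (del_conj (del_single (false, false)) x3)
    (del_mul (del_conj (del_single (true, false)) x4)
    (del_mul (del_conj (del_single (false, false)) x5)
    (del_mul (del_conj (del_single (true, false)) x6)
    (del_mul (del_conj (del_single (false, false)) x7)
      (del_conj (del_single (false, false)) x8)))))))
  have he := del_conj hd x0⁻¹
  have e : x0⁻¹ * ((x1 * c * x1⁻¹) * ((x2 * c⁻¹ * x2⁻¹) * ((x3 * b⁻¹ * x3⁻¹) *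
      ((x4 * c⁻¹ * x4⁻¹) * ((x5 * b⁻¹ * x5⁻¹) * ((x6 * c⁻¹ * x6⁻¹) * ((x7 * b⁻¹ * x7⁻¹) *
        (x8 * b⁻¹ * x8⁻¹)))))))) * x0⁻¹⁻¹ = FreeGroup.mk Winv := by
    rw [← W_inv, ← inv_eq_of_mul_eq_one_right h]
    group
  have hf := he Winv e.symm
  apply not_delP
  obtain ⟨L', h1, h2, h3⟩ := hf
  refine ⟨L', h1, h2, fun y => ?_⟩
  have := h3 y
  rcases y with ⟨y1, y2⟩
  rcases y1 with _ | _ <;> rcases y2 with _ | _ <;> simpa using this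

theorem not_main :
    ¬ (∀ (G : Type) [Group G] (n : ℕ), 1 ≤ n →
    ∀ (w : Fin n → Monoid.Coprod G (FreeGroup (Fin n))),
      (Matrix.of (fun i j : Fin n => Multiplicative.toAdd
        (Monoid.Coprod.lift (1 : G →* Multiplicative ℤ)
          (FreeGroup.lift (fun k : Fin n =>
            if k = i then Multiplicative.ofAdd (1 : ℤ) else 1)) (w j)))).det ≠ 0 →
      ∀ (r : ℕ), 1 ≤ r → ∀ g : Fin r → G,
        (∃ h : Fin r → (Monoid.Coprod G (FreeGroup (Fin n)) ⧸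
              Subgroup.normalClosure (Set.range w)),
          (List.ofFn (fun i => h i *
              QuotientGroup.mk' (Subgroup.normalClosure (Set.range w))
                (Monoid.Coprod.inl (g i)) * (h i)⁻¹)).prod = 1) →
        ∃ x : Fin r → G, (List.ofFn (fun i => x i * g i * (x i)⁻¹)).prod = 1) := by
  intro H
  let tt : Monoid.Coprod (FreeGroup Bool) (FreeGroup (Fin 1)) :=
    Monoid.Coprod.inr (FreeGroup.of 0)
  let w : Fin 1 → Monoid.Coprod (FreeGroup Bool) (FreeGroup (Fin 1)) := fun _ =>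
    tt⁻¹ * Monoid.Coprod.inl c * tt * tt * Monoid.Coprod.inl b
  have hdet : (Matrix.of (fun i j : Fin 1 => Multiplicative.toAdd
        (Monoid.Coprod.lift (1 : FreeGroup Bool →* Multiplicative ℤ)
          (FreeGroup.lift (fun k : Fin 1 =>
            if k = i then Multiplicative.ofAdd (1 : ℤ) else 1)) (w j)))).det ≠ 0 := by
    rw [Matrix.det_fin_one]
    simp [w, tt]
  let N := Subgroup.normalClosure (Set.range w)
  let q := QuotientGroup.mk' N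
  let B := q (Monoid.Coprod.inl b)
  let C := q (Monoid.Coprod.inl c)
  let T := q tt
  have hrel : T⁻¹ * C * T * T * B = 1 := by
    have h1 : w 0 ∈ N := Subgroup.subset_normalClosure ⟨0, rfl⟩
    have h2 : q (w 0) = 1 := (QuotientGroup.eq_one_iff (w 0)).2 h1
    simpa [w, map_mul, map_inv] using h2
  obtain ⟨x, hx⟩ := H (FreeGroup Bool) 1 le_rfl w hdet 9 (by norm_num)
    ![W, c, c⁻¹, b⁻¹, c⁻¹, b⁻¹, c⁻¹, b⁻¹, b⁻¹] ⟨![1, T⁻¹, C * C * C * C * T⁻¹,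
      C * C * C * C * B⁻¹ * C⁻¹ * T,
      C * C * C * C * B⁻¹ * C⁻¹ * B * C * T⁻¹,
      C * C * C * C * B⁻¹ * C⁻¹ * B * C * B⁻¹ * C⁻¹ * T,
      C * C * C * C * B⁻¹ * C⁻¹ * B * C * B⁻¹ * C⁻¹ * B * B * C * T⁻¹,
      C * C * C * C * B⁻¹ * C⁻¹ * B * C * B⁻¹ * C⁻¹ * B * B * C * B⁻¹ * C⁻¹ * T,
      C * C * C * C * B⁻¹ * C⁻¹ * B * C * B⁻¹ * C⁻¹ * B * B * C * B⁻¹ * C⁻¹ * B * B * C⁻¹ * T],
      by
        have key := ext_identity2 B C T hrel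
        have hW : QuotientGroup.mk' (Subgroup.normalClosure (Set.range w)) (Monoid.Coprod.inl W) = C * C * C * C * B⁻¹ * C⁻¹ * B * C * B⁻¹ * C⁻¹ * B * B *
            C * B⁻¹ * C⁻¹ * B * B * C⁻¹ * B * B := by
          simp only [W, map_mul, map_inv]
          rfl
        have hB : QuotientGroup.mk' (Subgroup.normalClosure (Set.range w)) (Monoid.Coprod.inl b⁻¹)
            = B⁻¹ := by simp only [map_inv]; rfl
        have hC : QuotientGroup.mk' (Subgroup.normalClosure (Set.range w)) (Monoid.Coprod.inl c⁻¹)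
            = C⁻¹ := by simp only [map_inv]; rfl
        have hC1 : QuotientGroup.mk' (Subgroup.normalClosure (Set.range w)) (Monoid.Coprod.inl c)
            = C := rfl
        simp only [List.ofFn_succ, List.ofFn_zero, List.prod_cons, List.prod_nil,
          Matrix.cons_val_zero, Matrix.cons_val_succ]
        rw [hW, hB, hC, hC1]
        exact key⟩
  simp only [List.ofFn_succ, List.ofFn_zero, List.prod_cons, List.prod_nil,
          Matrix.cons_val_zero, Matrix.cons_val_succ] at hx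
  refine not_exists (x 0) (x 1) (x 2) (x 3) (x 4) (x 5) (x 6) (x 7) (x 8) ?_
  rw [mul_one] at hx
  exact hx

end Pool.Agent.H36.Kerv
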